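import Pool.Agent.helper12.TY.Spec
import Pool.Agent.helper70.TZ.IQR

set_option autoImplicit false

/-!
# Project ty (MP_baa4d7_al), row ty:YRL: the relation for a normal subgroup of index `p`
-/

namespace Pool.Agent.TY

open Pool.Agent.helper58.DC Pool.Agent.DI Pool.Agent.GR Pool.Agent.OB Pool.Agent.TZ

theorem YRL_sum {ι κ : Type*} (R : Finset ι) (F : Finset κ) (a : ι → ℤ → ℤ) (t : κ → ℤ → ℤ)
    (s0 s1 : ℤ → ℤ) (e g q : ℤ) (ha : ∀ i ∈ R, (Function.support (a i)).Finite)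
    (ht : ∀ k ∈ F, (Function.support (t k)).Finite) (h0 : (Function.support s0).Finite)
    (h1 : (Function.support s1).Finite)
    (h : ∀ d, ∑ i ∈ R, e * a i d = g * (s0 d + q * s1 (d - 1)) - ∑ k ∈ F, t k d) :
    e * ∑ i ∈ R, ∑ᶠ d, a i d = g * (∑ᶠ d, s0 d + q * ∑ᶠ d, s1 d) - ∑ k ∈ F, ∑ᶠ d, t k d := by
  have h1' : (Function.support fun d => s1 (d - 1)).Finite := by
    refine (h1.preimage (Set.injOn_of_injective (Equiv.subRight (1 : ℤ)).injective)).subset ?_
    intro d hd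
    exact hd
  have e1 : ∑ᶠ d, ∑ i ∈ R, e * a i d = e * ∑ i ∈ R, ∑ᶠ d, a i d := by
    rw [finsum_sum_comm R (fun d i => e * a i d) (fun i hi => (ha i hi).subset fun d hd => by
      intro h0
      apply hd
      have h0' : a i d = 0 := h0
      change e * a i d = 0
      rw [h0', mul_zero]), Finset.mul_sum]
    refine Finset.sum_congr rfl fun i hi => ?_
    rw [mul_finsum]
  have e2 : ∑ᶠ d, ∑ k ∈ F, t k d = ∑ k ∈ F, ∑ᶠ d, t k d :=
    finsum_sum_comm F (fun d k => t k d) ht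
  have e3 : ∑ᶠ d, s1 (d - 1) = ∑ᶠ d, s1 d := by
    exact finsum_comp_equiv (Equiv.subRight (1 : ℤ)) (f := s1)
  have f1 : (Function.support fun d => q * s1 (d - 1)).Finite := h1'.subset fun d hd => by
    intro h0
    apply hd
    have h0' : s1 (d - 1) = 0 := h0
    change q * s1 (d - 1) = 0
    rw [h0', mul_zero]
  have f2 : (Function.support fun d => s0 d + q * s1 (d - 1)).Finite :=
    (h0.union f1).subset (Function.support_add _ _)
  have f3 : (Function.support fun d => g * (s0 d + q * s1 (d - 1))).Finite := f2.subset fun d hd => by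
    intro h0
    apply hd
    have h0' : s0 d + q * s1 (d - 1) = 0 := h0
    change g * (s0 d + q * s1 (d - 1)) = 0
    rw [h0', mul_zero]
  have f4 : (Function.support fun d => ∑ k ∈ F, t k d).Finite := by
    refine (F.finite_toSet.biUnion fun k hk => ht k hk).subset ?_
    intro d hd
    obtain ⟨k, hk, hk2⟩ := Finset.exists_ne_zero_of_sum_ne_zero hd
    exact Set.mem_biUnion hk hk2
  rw [← e1, finsum_congr h, finsum_sub_distrib f3 f4, e2, ← mul_finsum,
    finsum_add_distrib h0 f1, ← mul_finsum, e3]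

/-- the sum over the subgroups of a group of prime order -/
theorem YRL_two (p : ℕ) [hp : Fact p.Prime] (A : Type) [Group A] (hA : Nat.card A = p)
    (f : Subgroup A → ℤ) : ∑ᶠ U : Subgroup A, f U = f ⊥ + f ⊤ := by
  classical
  have hAf : Finite A := Nat.finite_of_card_ne_zero (by rw [hA]; exact hp.out.ne_zero)
  have hne : (⊥ : Subgroup A) ≠ ⊤ := by
    intro h
    have h1 : Nat.card (⊥ : Subgroup A) = Nat.card (⊤ : Subgroup A) := by rw [h]
    rw [Subgroup.card_bot, Subgroup.card_top, hA] at h1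
    exact hp.out.one_lt.ne h1
  have hall : ∀ U : Subgroup A, U = ⊥ ∨ U = ⊤ := by
    intro U
    have h1 : Nat.card U ∣ p := hA ▸ Subgroup.card_subgroup_dvd_card U
    rcases (Nat.dvd_prime hp.out).1 h1 with h2 | h2
    · exact Or.inl (Subgroup.card_eq_one.1 h2)
    · refine Or.inr (Subgroup.eq_top_of_card_eq U ?_)
      rw [h2, hA]
  have hs : Function.support f ⊆ (↑({⊥, ⊤} : Finset (Subgroup A)) : Set (Subgroup A)) := by
    intro U _
    rcases hall U with h | h
    · rw [h]; simp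
    · rw [h]; simp
  rw [finsum_eq_sum_of_support_subset f hs, Finset.sum_pair hne]

theorem YRL_unit (f : Subgroup Unit → ℤ) : ∑ᶠ V : Subgroup Unit, f V = f ⊤ := by
  have h : ∀ V : Subgroup Unit, V ≠ ⊤ → f V = 0 := fun V hV => absurd (Subsingleton.elim V ⊤) hV
  exact finsum_eq_single f ⊤ h

theorem YRL (hYDC : YDC_stmt) (hYFS : YFS_stmt) (hIQA : IQA_stmt) (hA7 : Pool.Agent.DI.A7_stmt)
    (hA8 : Pool.Agent.DI.A8_stmt) (hA14 : Pool.Agent.DI.A14_stmt) (hB0 : Pool.Agent.DI.B0_stmt)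
    (hC1 : Pool.Agent.DI.C1_stmt) (hC10 : Pool.Agent.DI.C10_stmt)
    (hC15 : Pool.Agent.DI.C15_stmt) (hC16 : Pool.Agent.DI.C16_stmt)
    (hD0 : Pool.Agent.DI.D0_stmt) (hD4 : Pool.Agent.DI.D4_stmt) (hD8 : Pool.Agent.DI.D8_stmt)
    (hIM : IM_stmt) (hFN : FN_stmt) (hTOA : TOA_stmt) : YRL_stmt := by
  intro G E A _ _ _ _ _ X p hp M hM hpM hA hOp hOpE χ hχ hst
  have hAf : Finite A := Nat.finite_of_card_ne_zero (by rw [hA]; exact hp.out.ne_zero)
  have hAc : IsCyclic A := isCyclic_of_prime_card hA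
  have hcq : CycQ X.inc.range := hB0.2.2.2 G E A X hAc
  have hnor : X.inc.range.Normal := hcq.1
  have hcardE := IQR_card G E A X
  have hG0 : Nat.card G ≠ 0 := Nat.card_pos.ne'
  have hrc : Nat.card X.inc.range = Nat.card G :=
    (Nat.card_congr (MonoidHom.ofInjective X.inc_injective).toEquiv).symm
  have hidx : X.inc.range.index = p := by
    have h1 := X.inc.range.card_mul_index
    rw [hrc, hcardE, hA] at h1
    exact Nat.eq_of_mul_eq_mul_left (Nat.pos_of_ne_zero hG0) h1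
  obtain ⟨τ, hτ⟩ : ∃ τ : E → ℂ, τ = omega (ext0 X.inc χ) := ⟨_, rfl⟩
  obtain ⟨RE, hRE1, hRE2⟩ := hIQA E p M hM hpM X.inc.range τ
  have hOp' : IsOp p X.inc.range ⊥ := ((hA14 G E p X.inc X.inc_injective).2.1).1 hOp
  obtain ⟨R, hR1, hR2⟩ := hC15 G M
  obtain ⟨ε, hε⟩ := hD8 G E A X
  obtain ⟨b, ⟨hbR, hb1⟩, hb2⟩ := hR2 χ ⟨χ, hχ, (hIM G M χ χ χ).1⟩
  have hbχ : Induces M b χ := (hIM G M χ b b).2.1 hb1
  have hCov : Cov M X.inc.range τ (ext0 X.inc b) := by
    intro g _
    rw [hτ]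
    exact (hC1 p M hM hpM).2.1 _ _ (hC16 G E p M hM hpM X.inc X.inc_injective χ b hb1 g)
  have hQf : (QQ p X.inc.range).Finite := Set.toFinite _
  have key : ∀ d : ℤ, ∑ c ∈ RE, (Nat.card E : ℤ) * altSum (trivE E) p M c d ⊤ =
      (Nat.card G : ℤ) * (altSum X p M χ d ⊥ + (p : ℤ) ^ 2 * altSum X p M χ (d - 1) ⊤) -
        ∑ Q ∈ hQf.toFinset, cSum p (X.inc.range ⊓ cz Q) ⊥ (cz Q) (gfun p M X.inc.range τ d) := by
    intro d
    have e0 := hRE2 d
    rw [IQR_top hA7 hA8 E p hOpE (gfun p M X.inc.range τ d)] at e0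
    have e2 := hYDC E p X.inc.range (gfun p M X.inc.range τ d) hnor hidx
    rw [e0, finsum_mem_eq_finite_toFinset_sum _ hQf] at e2
    have e3 := hA7 E p X.inc.range ⊥ ⊤ (gfun p M X.inc.range τ d) hOp' (by
      have : nz X.inc.range = ⊤ := Subgroup.normalizer_eq_top_iff.2 hnor
      rw [this]
      exact le_top)
    have e4 := hA8 G E p X.inc X.inc_injective ⊤ (gfun p M X.inc.range τ d)
    rw [e3] at e4
    have e5 := hD4 G E A E X X.inc.range ⊤ 1 ε p M hM hpM hcq τ d R hR1 hR2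
    rw [hε, e4] at e5
    rw [Finset.sum_eq_single b, if_pos hCov] at e5
    · have e6 : ∑ᶠ U : Subgroup A, ((1 * Nat.card U : ℕ) : ℤ) ^ 2 *
          ((Nat.card G : ℤ) * altSum X p M b (d - padicValNat p (1 * Nat.card U)) U) =
          (Nat.card G : ℤ) * (altSum X p M χ d ⊥ + (p : ℤ) ^ 2 * altSum X p M χ (d - 1) ⊤) := by
        rw [YRL_two p A hA]
        rw [Subgroup.card_bot, Subgroup.card_top, hA, hD0 G E A X p M b χ hbχ,
          hD0 G E A X p M b χ hbχ, one_mul, one_mul, padicValNat_self, padicValNat_one_right]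
        push_cast
        rw [sub_zero]
        ring
      rw [e2, e5, e6]
    · intro c hcR hcb
      rw [if_neg]
      intro hcov
      apply hcb
      apply hb2
      refine ⟨hcR, ?_⟩
      apply (hIM G M c χ χ).2.1
      refine hC10 G E A X p M hM hpM c (hR1 c hcR) χ hχ hst ?_
      intro g hg
      have := hcov g hg
      rw [hτ] at this
      exact this
    · intro h
      exact absurd hbR h
  refine ⟨RE, fun b hb => by rw [← hτ]; exact hRE1 b hb, ?_⟩
  have hfin := YRL_sum RE hQf.toFinset (fun c d => altSum (trivE E) p M c d ⊤)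
    (fun Q d => cSum p (X.inc.range ⊓ cz Q) ⊥ (cz Q) (gfun p M X.inc.range τ d))
    (fun d => altSum X p M χ d ⊥) (fun d => altSum X p M χ d ⊤) (Nat.card E : ℤ) (Nat.card G : ℤ)
    ((p : ℤ) ^ 2) (fun c _ => hFN E E Unit (trivE E) p M c ⊤)
    (fun Q _ => hYFS E p M X.inc.range τ (X.inc.range ⊓ cz Q) ⊥ (cz Q))
    (hFN G E A X p M χ ⊥) (hFN G E A X p M χ ⊤) key
  have h7 : ∑ c ∈ RE, aB p M c = ∑ c ∈ RE, ∑ᶠ d : ℤ, altSum (trivE E) p M c d ⊤ := by
    refine Finset.sum_congr rfl fun c _ => ?_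
    rw [hTOA E E Unit (trivE E) p M c]
    exact finsum_congr fun d => YRL_unit _
  have h8 : ((p : ℤ) * (Nat.card G : ℤ)) = (Nat.card E : ℤ) := by
    rw [hcardE, hA]
    push_cast
    ring
  rw [h7, h8, hfin, ← hτ, finsum_mem_eq_finite_toFinset_sum _ hQf]
  rfl

end Pool.Agent.TY
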